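import Pool.Agent.Helper60.T3.GoalsI

/-!
# Project T3 (MP_a41896_nt), part IND, packet CRV: the curve lemma
-/

set_option autoImplicit false

namespace Pool.Agent.Helper7.T3.CRV

open MvPolynomial WeierstrassCurve
open Pool.Agent.Helper29.BL Pool.Agent.Helper92.Ru Pool.Agent.Helper42.SG
open Pool.Agent.Helper60.T3

/-- `ψ(P)^2 = B(x(P))` for `P ≠ 0` -/
theorem ps_sq {F : Type} [Field F] (W : Affine F) (P : W.Point) (hP : P ≠ 0) :
    ps P ^ 2 = Bf W (xc P) := by
  cases P with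
  | zero => exact absurd rfl hP
  | some x y h =>
    have h1 := h.1
    rw [Affine.equation_iff] at h1
    simp only [ps, xc, Bf, WeierstrassCurve.b₂, WeierstrassCurve.b₄, WeierstrassCurve.b₆]
    linear_combination 4 * h1

/-- the algebraic closure of `k(w)` in `L` -/
noncomputable abbrev Kp (k L : Type) [Field k] [Field L] [Algebra k L] (w : L) : IntermediateField k L :=
  (algebraicClosure (IntermediateField.adjoin k {w}) L).restrictScalars k

theorem closed (k L : Type) [Field k] [Field L] [Algebra k L] [IsAlgClosed L] (w : L) :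
    IsAlgClosed (Kp k L w) := by
  have h : IsAlgClosed (algebraicClosure (IntermediateField.adjoin k {w}) L) :=
    IsAlgClosure.isAlgClosed (IntermediateField.adjoin k {w})
  exact h

theorem tr {k L : Type} [Field k] [Field L] [Algebra k L] {a w : L}
    (h : AlgebraicIndependent k ![a, w]) : Transcendental (Kp k L w) a := by
  have h1 := h.transcendental_adjoin (s := {1}) (i := 0) (by simp)
  have h2 : (![a, w] : Fin 2 → L) '' {1} = {w} := by simp
  rw [h2] at h1
  have h3 : Transcendental (IntermediateField.adjoin k {w}) a :=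
    IntermediateField.transcendental_adjoin_iff.2 h1
  exact h3.algebraicClosure

theorem mem_w {k L : Type} [Field k] [Field L] [Algebra k L] (w : L) : w ∈ Kp k L w := by
  have h1 : w ∈ IntermediateField.adjoin k {w} := IntermediateField.mem_adjoin_simple_self k w
  have h2 : IsAlgebraic (IntermediateField.adjoin k {w}) w :=
    isAlgebraic_algebraMap (⟨w, h1⟩ : IntermediateField.adjoin k {w})
  exact mem_algebraicClosure_iff.2 h2

/-- a square root of an element of `κ` is in `κ` -/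
theorem mem_sqrt {k L : Type} [Field k] [Field L] [Algebra k L] (κ : IntermediateField k L)
    [IsAlgClosed κ] (b p : L) (hb : b ∈ κ) (hp : p ^ 2 = b) : p ∈ κ := by
  obtain ⟨z, hz⟩ := IsAlgClosed.exists_pow_nat_eq (⟨b, hb⟩ : κ) (n := 2) (by norm_num)
  have h1 : (z : L) ^ 2 = b := congrArg Subtype.val hz
  have h2 : (p - z) * (p + z) = 0 := by linear_combination hp - h1
  rcases mul_eq_zero.1 h2 with h | h
  · have : p = z := by linear_combination h
    rw [this]; exact z.2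
  · have : p = -(z : L) := by linear_combination h
    rw [this]; exact neg_mem z.2

/-- the values of `B` at elements of `κ` -/
theorem mem_Bf {k L : Type} [Field k] [Field L] [Algebra k L] (κ : IntermediateField k L)
    (W : Affine k) (x : L) (hx : x ∈ κ) : Bf (WL L W) x ∈ κ := by
  have h1 : ∀ c : k, algebraMap k L c ∈ κ := fun c => κ.algebraMap_mem c
  have h2 : Bf (WL L W) x = 4 * x ^ 3 + algebraMap k L W.b₂ * x ^ 2 +
      2 * algebraMap k L W.b₄ * x + algebraMap k L W.b₆ := by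
    simp [Bf]
  rw [h2]
  have h4 : (4 : L) ∈ κ := by exact_mod_cast natCast_mem κ 4
  have h5 : (2 : L) ∈ κ := by exact_mod_cast natCast_mem κ 2
  exact add_mem (add_mem (add_mem (mul_mem h4 (pow_mem hx 3)) (mul_mem (h1 _) (pow_mem hx 2)))
    (mul_mem (mul_mem h5 (h1 _)) hx)) (h1 _)

theorem Rp {k κ : Type} [Field k] [Field κ] [Algebra k κ] (t : κ) (ht : Transcendental k t)
    (R : MvPolynomial (Fin 3) k) (hR : R ≠ 0) :
    (aeval (![X 1, C t, X 0] : Fin 3 → MvPolynomial (Fin 2) κ) R) ≠ 0 := by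
  have h1 : AlgebraicIndependent k (fun _ : Unit => t) :=
    algebraicIndependent_unique_type_iff.2 ht
  have h2 : AlgebraicIndependent κ (X : Fin 2 → MvPolynomial (Fin 2) κ) :=
    MvPolynomial.algebraicIndependent_X _ _
  have h3 := AlgebraicIndependent.sumElim_comp h1 h2
  have h4 := h3.comp (![Sum.inl 1, Sum.inr (), Sum.inl 0] : Fin 3 → Fin 2 ⊕ Unit) (by
    intro a b hab
    fin_cases a <;> fin_cases b <;> simp_all)
  have h5 : (Sum.elim (X : Fin 2 → MvPolynomial (Fin 2) κ)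
      (algebraMap κ (MvPolynomial (Fin 2) κ) ∘ fun _ : Unit => t)) ∘
      (![Sum.inl 1, Sum.inr (), Sum.inl 0] : Fin 3 → Fin 2 ⊕ Unit) =
      ![X 1, C t, X 0] := by
    funext i
    fin_cases i <;> simp [MvPolynomial.algebraMap_eq]
  rw [h5] at h4
  intro h
  apply hR
  apply h4
  rw [h, map_zero]

theorem Rdeg {k κ : Type} [Field k] [Field κ] [Algebra k κ] (t : κ)
    (R : MvPolynomial (Fin 3) k) :
    (aeval (![X 1, C t, X 0] : Fin 3 → MvPolynomial (Fin 2) κ) R).degreeOf 1 ≤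
      R.degreeOf 0 := by
  rw [aeval_def, eval₂_eq']
  refine (degreeOf_sum_le _ _ _).trans (Finset.sup_le fun d hd => ?_)
  have h0 : d 0 ≤ R.degreeOf 0 := monomial_le_degreeOf 0 hd
  refine le_trans ?_ h0
  rw [Fin.prod_univ_three]
  simp only [Matrix.cons_val_zero, Matrix.cons_val_one, Matrix.cons_val_two, Matrix.head_cons,
    Matrix.tail_cons, Matrix.cons_val]
  have e1 : (algebraMap k (MvPolynomial (Fin 2) κ)) (coeff d R) = C (algebraMap k κ (coeff d R)) := rfl
  rw [e1]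
  refine (degreeOf_C_mul_le _ _ _).trans ?_
  refine (degreeOf_mul_le _ _ _).trans ?_
  have h1 : degreeOf 1 ((X 0 : MvPolynomial (Fin 2) κ) ^ d 2) = 0 := by
    apply Nat.eq_zero_of_le_zero
    refine (degreeOf_pow_le _ _ _).trans ?_
    rw [degreeOf_X_of_ne (by decide)]
    simp
  rw [h1, add_zero]
  refine (degreeOf_mul_le _ _ _).trans ?_
  have h2 : degreeOf 1 ((C t : MvPolynomial (Fin 2) κ) ^ d 1) = 0 := by
    rw [← C_pow, degreeOf_C]
  rw [h2, add_zero]
  refine (degreeOf_pow_le _ _ _).trans ?_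
  rw [degreeOf_X_self]
  simp

theorem Rval {k κ L : Type} [Field k] [Field κ] [Field L] [Algebra k κ] [Algebra κ L]
    [Algebra k L] [IsScalarTower k κ L] (t : κ) (a c : L) (R : MvPolynomial (Fin 3) k) :
    aeval ![c, a] (aeval (![X 1, C t, X 0] : Fin 3 → MvPolynomial (Fin 2) κ) R) =
      aeval ![a, algebraMap κ L t, c] R := by
  have h : ((aeval ![c, a] : MvPolynomial (Fin 2) κ →ₐ[κ] L).restrictScalars k).comp
      (aeval (![X 1, C t, X 0] : Fin 3 → MvPolynomial (Fin 2) κ)) =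
      aeval ![a, algebraMap κ L t, c] := by
    apply MvPolynomial.algHom_ext
    intro i
    fin_cases i <;> simp
  exact congrArg (fun f : MvPolynomial (Fin 3) k →ₐ[k] L => f R) h

theorem t (hAIP : S_AIP) (hCF : S_CFACT) (hCL : S_CLAM) (hCA : S_CASA) (hCB : S_CASB) :
    S_CRV := by
  intro D0
  obtain ⟨C, hC⟩ := hCL D0
  obtain ⟨CA, hCA⟩ := hCA D0 C
  obtain ⟨CB, hCB⟩ := hCB D0 C
  refine ⟨1 / ((CA : ℝ) + CB + 1), by positivity, ?_⟩
  intro k L _ _ _ _ _ _ _ W2 W3 _ _ e g g' a2 b2 a3 b3 hg hg' hd hd' hp hp' ha2 hb2 ha3 hb3 hind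
    hon hon' hslo
  obtain ⟨hw0, -, hw2, hi1, hi2⟩ := hAIP k L W2 a2 b2 e ha2 hb2 hind
  obtain ⟨w, hw⟩ : ∃ w, w = (2 ^ e) • a2 - b2 := ⟨_, rfl⟩
  have hcl : IsAlgClosed (Kp k L (xc w)) := closed k L (xc w)
  have hwx : xc w ∈ Kp k L (xc w) := mem_w (xc w)
  have hCD : CD (Kp k L (xc w)) W2 W3 D0 e g g' a2 b2 a3 b3 := by
    refine ⟨hg, hg', hd, hd', hp, hp', ha2, hb2, ha3, hb3, ?_, ?_, hon, hon', ?_, hw2, hslo⟩
    · rw [hw]; exact tr hi1
    · rw [hw]; exact tr hi2
    · rw [← hw]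
      right
      refine ⟨⟨⟨xc w, hwx⟩, rfl⟩, ?_⟩
      have h1 : ps w ∈ Kp k L (xc w) :=
        mem_sqrt _ _ _ (mem_Bf (Kp k L (xc w)) W2 (xc w) hwx)
          (ps_sq (WL L W2) w (by rw [hw]; exact hw0))
      exact ⟨⟨ps w, h1⟩, rfl⟩
  obtain ⟨D, hD⟩ := hCF k (Kp k L (xc w)) L W2 W3 D0 e g g' a2 b2 a3 b3 hCD
  obtain ⟨h1, h2, h3⟩ := hC k (Kp k L (xc w)) L W2 W3 e g g' a2 b2 a3 b3 D hCD hD
  refine ⟨h1, h2, ?_⟩
  intro R hR hRv
  have ht : Transcendental k (⟨xc w, hwx⟩ : Kp k L (xc w)) := by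
    have h4 : Transcendental k (xc w) := by
      have := hi1.transcendental 1
      rw [hw]
      simpa using this
    intro h5
    apply h4
    exact h5.algebraMap
  have hR' := Rp (⟨xc w, hwx⟩ : Kp k L (xc w)) ht R hR
  have hRd := Rdeg (⟨xc w, hwx⟩ : Kp k L (xc w)) R
  have hRv' : aeval ![xc ((2 ^ e) • a3 - b3), xc a2]
      (aeval (![X 1, MvPolynomial.C (⟨xc w, hwx⟩ : Kp k L (xc w)), X 0] :
        Fin 3 → MvPolynomial (Fin 2) (Kp k L (xc w))) R) = 0 := by
    rw [Rval]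
    rw [← hRv, ← hw]
    rfl
  obtain ⟨h6, h7, h8⟩ := h3 _ hR' hRv'
  obtain ⟨d, hd0⟩ : ∃ d, d = (aeval (![X 1, MvPolynomial.C (⟨xc w, hwx⟩ : Kp k L (xc w)), X 0] :
        Fin 3 → MvPolynomial (Fin 2) (Kp k L (xc w))) R).degreeOf 1 := ⟨_, rfl⟩
  rw [← hd0] at h6 h7 h8 hRd
  have hmain : (4 : ℝ) ^ e ≤ ((CA : ℝ) + CB + 1) * d := by
    by_cases hz : zd D b3 ∈ Set.range (algebraMap (Kp k L (xc w)) L)
    · have h9 := hCB k (Kp k L (xc w)) L W2 W3 e d g g' a2 b2 a3 b3 D hCD hD h6 h7 hz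
      have h10 : (4 : ℝ) ^ e ≤ (CB : ℝ) * d := by exact_mod_cast h9
      have : (0 : ℝ) ≤ ((CA : ℝ) + 1) * d := by positivity
      linarith
    · have h9 := hCA k (Kp k L (xc w)) L W2 W3 e d g g' a2 b2 a3 b3 D hCD hD h6 h8 hz
      have h10 : (4 : ℝ) ^ e ≤ (CA : ℝ) * d := by exact_mod_cast h9
      have : (0 : ℝ) ≤ ((CB : ℝ) + 1) * d := by positivity
      linarith
  have hpos : (0 : ℝ) < (CA : ℝ) + CB + 1 := by positivity
  calc 1 / ((CA : ℝ) + CB + 1) * 4 ^ e ≤ 1 / ((CA : ℝ) + CB + 1) * (((CA : ℝ) + CB + 1) * d) :=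
        mul_le_mul_of_nonneg_left hmain (by positivity)
    _ = d := by field_simp
    _ ≤ R.degreeOf 0 := by exact_mod_cast hRd

end Pool.Agent.Helper7.T3.CRV
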